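import Mathlib
import Pool.Agent.Work.MP_b7a9b7_lc.Final
import Pool.Agent.Work.MP_b7a9b7_lc.ChangNeg

/-!
Under the continuum hypothesis and Chang's conjecture `(ℵ_{ω+1}, ℵ_ω) ↠ (ℵ₁, ℵ₀)`, neither
Cohen forcing `C(κ)` nor random forcing `B(κ)` has the transformation property, for any
`κ ≥ ℵ_ω`.
-/

universe u

open Cardinal Ordinal

namespace Pool.Agent.Results.MP_b7a9b7_lc.ChangRefutes

open Pool.Agent.TransProp

theorem result (CH : Cardinal.aleph.{0} 1 = Cardinal.continuum)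
    (hC : Chang.{u} (Cardinal.aleph (Ordinal.omega0 + 1)) (Cardinal.aleph Ordinal.omega0))
    (κ : Cardinal.{u}) (hκ : Cardinal.aleph Ordinal.omega0 ≤ κ) :
    ∃ θ₀ : Cardinal.{u}, ∀ θ ≥ θ₀, ∀ W : HSet θ → HSet θ → Prop,
      ¬ CohenTPAt κ θ W ∧ ¬ RandomTPAt κ θ W := by
  obtain ⟨θ₁, h₁⟩ := not_TPAt_of_Chang CH hC (isForcing_quot (κ := κ) goodIdeal_meagre)
    (hκ.trans (card_quotD goodIdeal_meagre))
  obtain ⟨θ₂, h₂⟩ := not_TPAt_of_Chang CH hC (isForcing_quot (κ := κ) goodIdeal_null)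
    (hκ.trans (card_quotD goodIdeal_null))
  exact ⟨max θ₁ θ₂, fun θ hθ W => ⟨h₁ θ ((le_max_left _ _).trans hθ) W,
    h₂ θ ((le_max_right _ _).trans hθ) W⟩⟩

end Pool.Agent.Results.MP_b7a9b7_lc.ChangRefutes
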