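import Mathlib
import Pool.Agent.Forc.FinalB

/-!
If there is a model of ZFC with a supercompact cardinal then there is a model of ZFC and the
continuum hypothesis with an infinite cardinal `κ` such that Cohen forcing `C(ν)` does not have the
transformation property for any cardinal `ν ≥ κ`; more generally, no partial order with a largest
element and at least `κ` elements has it.
-/

universe u

namespace Pool.Agent.Results.MP_b7a9b7_lc.CohenFails

open Pool.Agent.SigB Pool.Agent.Forc

theorem result (M : Type u) [Membership M M] [IsZFC M]
    (h : ∃ l : M, ∀ s : M, IsOrdinal s → IsSupercompact l s) :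
    ∃ (N : Type u) (_ : Membership N N), IsZFC N ∧ CH N ∧ ManyH N ∧
      ∃ κ : N, IsInfCardinal κ ∧
        (∀ ν : N, IsInfCardinal ν → IsSub κ ν → ∃ P R : N, IsCohen P R ν ∧ FailsTP P R) ∧
        ∀ P R : N, IsPartialOrder P R → (∃ e, IsTop e P R) → Injects κ P → FailsTP P R :=
  mainSC M h

end Pool.Agent.Results.MP_b7a9b7_lc.CohenFails
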