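import Mathlib
import Pool.Agent.Work.MP_b7a9b7_lc.Trace2

/-!
Under the continuum hypothesis, either `C(κ)` and `B(κ)` have the transformation property for all
infinite `κ`, or there is a threshold `μ ≥ ℵ_ω` of countable cofinality such that, for infinite `κ`,
`C(κ)` and `B(κ)` have the transformation property exactly when `κ < μ`.
-/

universe u

open Cardinal Ordinal

namespace Pool.Agent.Results.MP_b7a9b7_lc.Threshold

open Pool.Agent.TransProp

theorem result (CH : Cardinal.aleph.{0} 1 = Cardinal.continuum) :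
    (∀ κ : Cardinal.{u}, ℵ₀ ≤ κ → CohenTP κ ∧ RandomTP κ) ∨
    ∃ μ : Cardinal.{u}, Cardinal.aleph Ordinal.omega0 ≤ μ ∧ μ.ord.cof = ℵ₀ ∧
      ∀ κ : Cardinal.{u}, ℵ₀ ≤ κ → (CohenTP κ ↔ κ < μ) ∧ (RandomTP κ ↔ κ < μ) := by
  rcases trace_threshold.{u} CH with h | ⟨μ, h1, h2, h3⟩
  · exact Or.inl fun κ hκ => ⟨(cohenTP_iff CH hκ).2 (h κ hκ), (randomTP_iff CH hκ).2 (h κ hκ)⟩
  · exact Or.inr ⟨μ, h1, h2, fun κ hκ => ⟨(cohenTP_iff CH hκ).trans (h3 κ hκ),
      (randomTP_iff CH hκ).trans (h3 κ hκ)⟩⟩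

end Pool.Agent.Results.MP_b7a9b7_lc.Threshold
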