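import Mathlib
import Pool.Agent.Work.MP_b7a9b7_lc.Final

/-!
Under the continuum hypothesis, for every infinite cardinal `κ`, the transformation property of
Cohen forcing `C(κ)`, the transformation property of random forcing `B(κ)`, and the combinatorial
trace principle for `κ` are equivalent.
-/

universe u

open Cardinal Ordinal

namespace Pool.Agent.Results.MP_b7a9b7_lc.TraceEquivalence

open Pool.Agent.TransProp

theorem result (CH : Cardinal.aleph.{0} 1 = Cardinal.continuum) (κ : Cardinal.{u})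
    (hκ : ℵ₀ ≤ κ) :
    ∃ θ₀ : Cardinal.{u}, ∀ θ ≥ θ₀, θ.IsRegular → ∀ W : HSet θ → HSet θ → Prop,
      IsWellOrder (HSet θ) W →
      (CohenTPAt κ θ W ↔ TracePrinciple κ.ord.ToType) ∧
      (RandomTPAt κ θ W ↔ TracePrinciple κ.ord.ToType) := by
  obtain ⟨θ₀, h⟩ := main_equiv (κ := κ) CH hκ
  exact ⟨θ₀, fun θ hθ _ W hW => h θ hθ W hW⟩

end Pool.Agent.Results.MP_b7a9b7_lc.TraceEquivalence
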